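import Pool.Agent.W477.ER.Stm

/-!
# Polynomial inequalities (ER-FQ, ER-IG, ER-IC, ER-IV)
-/

set_option autoImplicit false

namespace Pool.Agent.W583.ER

open Pool.Agent.W477.ER

theorem pp_succ (q n : ℕ) : pp q (n + 1) = pp q n + q ^ n := by
  unfold pp; rw [Finset.sum_range_succ]

theorem pp_geom (q n : ℕ) : ((q : ℤ) - 1) * (pp q n : ℤ) + 1 = (q : ℤ) ^ n := by
  induction n with
  | zero => simp [pp]
  | succ n ih =>
    rw [pp_succ]
    push_cast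
    rw [pow_succ]
    linear_combination ih

theorem pp_mono (q : ℕ) {m n : ℕ} (h : m ≤ n) : pp q m ≤ pp q n := by
  unfold pp
  exact Finset.sum_le_sum_of_subset (Finset.range_mono h)

theorem ppz_succ (q n : ℕ) : (pp q (n + 1) : ℤ) = pp q n + (q : ℤ) ^ n := by
  rw [pp_succ]; push_cast; ring

/-! ### FQ -/

theorem fq : FQ := by
  intro q v t hq hv hvq ht
  obtain ⟨k, rfl⟩ : ∃ k, q = v + 2 + k := ⟨q - (v + 2), by omega⟩
  rcases Nat.lt_or_ge v t with h | h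
  · obtain ⟨s, rfl⟩ : ∃ s, t = v + 1 + s := ⟨t - (v + 1), by omega⟩
    have e1 : v - (v + 1 + s) = 0 := by omega
    have e2 : v + 1 + s - v - 1 = s := by omega
    have e3 : v + 1 - (v + 1 + s) = 0 := by omega
    have e4 : v + 1 + s - 1 - v = s := by omega
    rw [e1, e2, e3, e4]
    push_cast
    obtain ⟨u, hu⟩ : ∃ u : ℕ, v + 2 + k + 1 = v + 1 + s + u := ⟨v + 2 + k + 1 - (v + 1 + s), by omega⟩
    have hs : (s : ℤ) = k + 2 - u := by
      have : ((v + 2 + k + 1 : ℕ) : ℤ) = ((v + 1 + s + u : ℕ) : ℤ) := by rw [hu]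
      push_cast at this
      linarith
    have h1 : (0 : ℤ) ≤ ((v : ℤ) + 1 + k) * u * s * (((v : ℤ) + 2 + k) * v - v - 1) := by
      have h2 : (0 : ℤ) ≤ ((v : ℤ) + 2 + k) * v - v - 1 := by
        have : (1 : ℤ) ≤ v := by exact_mod_cast hv
        nlinarith [Int.natCast_nonneg k]
      positivity
    have hk : (k : ℤ) = s + u - 2 := by linarith
    rw [ge_iff_le, ← sub_nonneg]
    refine h1.trans (le_of_eq ?_)
    rw [hk]
    ring
  · obtain ⟨s, rfl⟩ : ∃ s, v = t + s := ⟨v - t, by omega⟩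
    have e1 : t + s - t = s := by omega
    have e2 : t - (t + s) - 1 = 0 := by omega
    have e3 : t + s + 1 - t = s + 1 := by omega
    have e4 : t - 1 - (t + s) = 0 := by omega
    rw [e1, e2, e3, e4]
    push_cast
    have h1 : (0 : ℤ) ≤ ((t : ℤ) + s + 2 + k) * ((t : ℤ) + s + 1 + k) * t * (s * (k + 2)) := by
      positivity
    rw [ge_iff_le, ← sub_nonneg]
    refine h1.trans (le_of_eq ?_)
    ring

/-! ### IneqG -/

/-- the expression of IneqG with `r = 1 + R` -/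
def fG (v q p R : ℤ) : ℤ :=
  (q - 1) * (v * (v * q * ((q - 1) * p + 1) + (p + ((q - 1) * p + 1)) + 1 + R) *
      ((v * q * ((q - 1) * p + 1) + (p + ((q - 1) * p + 1)) + 1 + R) - 1)
    - v * (v * q * ((q - 1) * p + 1) + (p + ((q - 1) * p + 1)) + 1 + R) *
      (p + ((q - 1) * p + 1) + q * ((q - 1) * p + 1)) * (q + v + 1)
    + v * (v + 1) * (p + ((q - 1) * p + 1) + q * ((q - 1) * p + 1) + q * q * ((q - 1) * p + 1)) *
      (p + ((q - 1) * p + 1) + q * ((q - 1) * p + 1))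
    - (v + 1) * ((p + ((q - 1) * p + 1) + q * ((q - 1) * p + 1) + q * q * ((q - 1) * p + 1)) -
      (v * q * ((q - 1) * p + 1) + (p + ((q - 1) * p + 1)) + 1 + R)) *
      ((v - 1) * (p + ((q - 1) * p + 1)) + p - 1))
  - (q + 1 - v) * (v * q * ((q - 1) * p + 1) + (p + ((q - 1) * p + 1)) + 1 + R) *
    ((v * q * ((q - 1) * p + 1) + (p + ((q - 1) * p + 1)) + 1 + R) -
      (p + ((q - 1) * p + 1) + q * ((q - 1) * p + 1)) - v)

theorem fG_0 (a b p : ℕ) : 0 < fG ((a : ℤ) + 1) ((a : ℤ) + b + 3) p 0 := by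
  unfold fG
  ring_nf
  positivity

theorem fG_L (a b p : ℕ) : 0 < fG ((a : ℤ) + 1) ((a : ℤ) + b + 3) p
    (((b : ℤ) + 1) * (((a : ℤ) + b + 2) * p + 1)) := by
  unfold fG
  ring_nf
  positivity

theorem fG_1 (a b p : ℕ) : 0 < 2 * fG ((a : ℤ) + 1) ((a : ℤ) + b + 3) p 0 +
    (fG ((a : ℤ) + 1) ((a : ℤ) + b + 3) p 1 - fG ((a : ℤ) + 1) ((a : ℤ) + b + 3) p 0 -
      (((a : ℤ) + b + 3) * ((a : ℤ) + 1 - 1) - 1)) * (((b : ℤ) + 1) * (((a : ℤ) + b + 2) * p + 1)) := by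
  unfold fG
  ring_nf
  positivity

theorem bernstein (v q p L R : ℤ) : L ^ 2 * fG v q p R =
    fG v q p 0 * (L - R) ^ 2 + (2 * fG v q p 0 + (fG v q p 1 - fG v q p 0 -
      (q * (v - 1) - 1)) * L) * (R * (L - R)) + fG v q p L * R ^ 2 := by
  unfold fG
  ring

/-- positivity from the Bernstein form -/
theorem bern_pos {f0 f1 f2 L R fR : ℤ} (h0 : 0 < f0) (h1 : 0 < f1) (h2 : 0 < f2) (hR : 0 ≤ R)
    (hRL : R ≤ L) (hL : 0 < L) (h : L ^ 2 * fR = f0 * (L - R) ^ 2 + f1 * (R * (L - R)) + f2 * R ^ 2) :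
    0 < fR := by
  have hpos : 0 < f0 * (L - R) ^ 2 + f1 * (R * (L - R)) + f2 * R ^ 2 := by
    have hs : 0 ≤ L - R := by linarith
    have a1 : 0 ≤ f0 * (L - R) ^ 2 := by positivity
    have a2 : 0 ≤ f1 * (R * (L - R)) := mul_nonneg h1.le (mul_nonneg hR hs)
    have a3 : 0 ≤ f2 * R ^ 2 := by positivity
    rcases hR.eq_or_lt with h3 | h3
    · have : 0 < f0 * (L - R) ^ 2 := by
        rw [← h3, sub_zero]; positivity
      linarith
    · have : 0 < f2 * R ^ 2 := by positivity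
      linarith
  by_contra hcon
  have h3 : L ^ 2 * fR ≤ 0 := mul_nonpos_of_nonneg_of_nonpos (by positivity) (not_lt.1 hcon)
  linarith

theorem ineqG : IneqG := by
  intro q l v r N p0 p1 p2 p3 hq hv hvq hr hr2 h0 h1 h2 h3 hN
  obtain ⟨a, rfl⟩ : ∃ a, v = a + 1 := ⟨v - 1, by omega⟩
  obtain ⟨b, rfl⟩ : ∃ b, q = a + b + 3 := ⟨q - (a + 3), by omega⟩
  obtain ⟨R, rfl⟩ : ∃ R, r = R + 1 := ⟨r - 1, by omega⟩
  have e : a + b + 3 - 1 - (a + 1) = b + 1 := by omega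
  rw [e] at hr2
  have hgeo := pp_geom (a + b + 3) l
  set p : ℕ := pp (a + b + 3) l with hp
  have hQ : (((a + b + 3 : ℕ) : ℤ)) ^ l = ((a : ℤ) + b + 2) * p + 1 := by
    rw [← hgeo]; push_cast; ring
  have hRL : (R : ℤ) ≤ ((b : ℤ) + 1) * (((a : ℤ) + b + 2) * p + 1) := by
    have : ((R + 1 : ℕ) : ℤ) ≤ (((b + 1) * (a + b + 3) ^ l + 1 : ℕ) : ℤ) := by exact_mod_cast hr2
    push_cast at this
    have hQ' : ((a : ℤ) + b + 3) ^ l = ((a : ℤ) + b + 2) * p + 1 := by rw [← hQ]; push_cast; ring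
    rw [hQ'] at this
    linarith
  have hL : (0 : ℤ) < ((b : ℤ) + 1) * (((a : ℤ) + b + 2) * p + 1) := by positivity
  have key := bern_pos (fR := fG ((a : ℤ) + 1) ((a : ℤ) + b + 3) p R)
    (fG_0 a b p) (fG_1 a b p) (fG_L a b p) (Int.natCast_nonneg R) hRL hL
    (bernstein _ _ _ _ _)
  have hp1 : p1 = p + (((a : ℤ) + b + 2) * p + 1) := by
    rw [h1, ppz_succ, hQ]
  have hp2 : p2 = p + (((a : ℤ) + b + 2) * p + 1) +
      ((a : ℤ) + b + 3) * (((a : ℤ) + b + 2) * p + 1) := by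
    rw [h2, ppz_succ, ppz_succ, pow_succ, hQ]; push_cast; ring
  have hp3 : p3 = p + (((a : ℤ) + b + 2) * p + 1) +
      ((a : ℤ) + b + 3) * (((a : ℤ) + b + 2) * p + 1) +
      ((a : ℤ) + b + 3) * ((a : ℤ) + b + 3) * (((a : ℤ) + b + 2) * p + 1) := by
    rw [h3, ppz_succ, ppz_succ, ppz_succ, pow_succ, pow_succ, pow_succ, hQ]; push_cast; ring
  have hN' : N = ((a : ℤ) + 1) * ((a : ℤ) + b + 3) * (((a : ℤ) + b + 2) * p + 1) +
      (p + (((a : ℤ) + b + 2) * p + 1)) + 1 + R := by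
    rw [hN, hp1, pow_succ, hQ]; push_cast; ring
  refine lt_of_lt_of_eq key ?_
  rw [hN', h0, hp1, hp2, hp3]
  unfold fG
  push_cast
  ring

/-! ### IneqC -/

/-- the expression of IneqC with `P' = p3`, `r = 1 + R` -/
def fC (v q p R : ℤ) : ℤ :=
  q * (v * q * ((q - 1) * p + 1) + (p + ((q - 1) * p + 1)) + 1 + R) *
    ((p + ((q - 1) * p + 1) + q * ((q - 1) * p + 1) + q * q * ((q - 1) * p + 1)) -
      (v * q * ((q - 1) * p + 1) + (p + ((q - 1) * p + 1)) + 1 + R) + 1) -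
  ((p + ((q - 1) * p + 1) + q * ((q - 1) * p + 1)) - 1) *
    (q * (p + ((q - 1) * p + 1) + q * ((q - 1) * p + 1) + q * q * ((q - 1) * p + 1)) + 1 -
      (v * q * ((q - 1) * p + 1) + (p + ((q - 1) * p + 1)) + 1 + R))

theorem fC_a0 (a b p : ℕ) : 0 < fC ((a : ℤ) + 1 + 2) ((a : ℤ) + 1 + b + 3) p 0 := by
  unfold fC
  ring_nf
  positivity

theorem fC_aL (a b p : ℕ) : 0 < fC ((a : ℤ) + 1 + 2) ((a : ℤ) + 1 + b + 3) p
    ((b : ℤ) * (((a : ℤ) + 1 + b + 2) * p + 1)) := by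
  unfold fC
  ring_nf
  positivity

theorem fC_b0 (a b p : ℕ) : 0 < fC ((a : ℤ) + 2) ((a : ℤ) + (b + 1) + 3) p 0 := by
  unfold fC
  ring_nf
  positivity

theorem fC_bL (a b p : ℕ) : 0 < fC ((a : ℤ) + 2) ((a : ℤ) + (b + 1) + 3) p
    (((b : ℤ) + 1) * (((a : ℤ) + (b + 1) + 2) * p + 1)) := by
  unfold fC
  ring_nf
  positivity

theorem fC_pos (a b p : ℕ) (h : 1 ≤ a + b) : 0 < fC ((a : ℤ) + 2) ((a : ℤ) + b + 3) p 0 ∧
    0 < fC ((a : ℤ) + 2) ((a : ℤ) + b + 3) p ((b : ℤ) * (((a : ℤ) + b + 2) * p + 1)) := by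
  rcases Nat.eq_zero_or_pos a with h0 | h0
  · obtain ⟨b', rfl⟩ : ∃ b', b = b' + 1 := ⟨b - 1, by omega⟩
    have h1 := fC_b0 a b' p
    have h2 := fC_bL a b' p
    push_cast
    exact ⟨h1, h2⟩
  · obtain ⟨a', rfl⟩ : ∃ a', a = a' + 1 := ⟨a - 1, by omega⟩
    have h1 := fC_a0 a' b p
    have h2 := fC_aL a' b p
    push_cast
    exact ⟨h1, h2⟩

theorem concC (v q p L R : ℤ) : L * fC v q p R =
    (L - R) * fC v q p 0 + R * fC v q p L + q * (L * R * (L - R)) := by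
  unfold fC
  ring

theorem conc_pos {f0 f2 L R fR g : ℤ} (h0 : 0 < f0) (h2 : 0 < f2) (hR : 0 ≤ R)
    (hRL : R ≤ L) (hg : 0 ≤ g) (h00 : R = 0 → fR = f0)
    (h : L * fR = (L - R) * f0 + R * f2 + g * (L * R * (L - R))) : 0 < fR := by
  rcases hR.eq_or_lt with h3 | h3
  · rw [h00 h3.symm]; exact h0
  · have hL : 0 < L := lt_of_lt_of_le h3 hRL
    have hs : 0 ≤ L - R := by linarith
    have a1 : 0 ≤ (L - R) * f0 := mul_nonneg hs h0.le
    have a2 : 0 < R * f2 := mul_pos h3 h2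
    have a3 : 0 ≤ g * (L * R * (L - R)) := by positivity
    by_contra hcon
    have h4 : L * fR ≤ 0 := mul_nonpos_of_nonneg_of_nonpos hL.le (not_lt.1 hcon)
    linarith

theorem ineqC : IneqC := by
  intro q l v r M N P P' P2 hq hv hvq hM hr hr2 hP hP' hP2 hN
  obtain ⟨a, rfl⟩ : ∃ a, v = a + 2 := ⟨v - 2, by omega⟩
  obtain ⟨b, rfl⟩ : ∃ b, q = a + b + 3 := ⟨q - (a + 3), by omega⟩
  obtain ⟨R, rfl⟩ : ∃ R, r = R + 1 := ⟨r - 1, by omega⟩
  have e : a + b + 3 - 1 - (a + 2) = b := by omega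
  rw [e] at hr2
  have hgeo := pp_geom (a + b + 3) l
  have hPP' : P = ((a + b + 3 : ℕ) : ℤ) * P' + 1 := by
    obtain ⟨m, rfl⟩ : ∃ m, M = m + 1 := ⟨M - 1, by omega⟩
    rw [hP, hP', Nat.add_sub_cancel, ppz_succ, ← pp_geom]
    push_cast; ring
  have hz : (pp (a + b + 3) (l + 3) : ℤ) ≤ P' := by
    rw [hP']
    exact_mod_cast pp_mono _ (by omega)
  set p : ℕ := pp (a + b + 3) l with hp
  have hQ : (((a + b + 3 : ℕ) : ℤ)) ^ l = ((a : ℤ) + b + 2) * p + 1 := by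
    rw [← hgeo]; push_cast; ring
  have hRL : (R : ℤ) ≤ (b : ℤ) * (((a : ℤ) + b + 2) * p + 1) := by
    have : ((R + 1 : ℕ) : ℤ) ≤ ((b * (a + b + 3) ^ l + 1 : ℕ) : ℤ) := by exact_mod_cast hr2
    push_cast at this
    have hQ' : ((a : ℤ) + b + 3) ^ l = ((a : ℤ) + b + 2) * p + 1 := by rw [← hQ]; push_cast; ring
    rw [hQ'] at this
    linarith
  have hab : 1 ≤ a + b := by omega
  obtain ⟨k0, k1⟩ := fC_pos a b p hab
  have key := conc_pos k0 k1 (Int.natCast_nonneg R) hRL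
    (show (0 : ℤ) ≤ (a : ℤ) + b + 3 by positivity) (fR := fC ((a : ℤ) + 2) ((a : ℤ) + b + 3) p R)
    (fun h => by rw [h]) (concC _ _ _ _ _)
  have hp2 : P2 = p + (((a : ℤ) + b + 2) * p + 1) +
      ((a : ℤ) + b + 3) * (((a : ℤ) + b + 2) * p + 1) := by
    rw [hP2, ppz_succ, ppz_succ, pow_succ, hQ]; push_cast; ring
  have hp3 : (pp (a + b + 3) (l + 3) : ℤ) = p + (((a : ℤ) + b + 2) * p + 1) +
      ((a : ℤ) + b + 3) * (((a : ℤ) + b + 2) * p + 1) +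
      ((a : ℤ) + b + 3) * ((a : ℤ) + b + 3) * (((a : ℤ) + b + 2) * p + 1) := by
    rw [ppz_succ, ppz_succ, ppz_succ, pow_succ, pow_succ, pow_succ, hQ]; push_cast; ring
  have hN' : N = ((a : ℤ) + 2) * ((a : ℤ) + b + 3) * (((a : ℤ) + b + 2) * p + 1) +
      (p + (((a : ℤ) + b + 2) * p + 1)) + 1 + R := by
    rw [hN, ppz_succ, pow_succ, hQ]; push_cast; ring
  rw [hp3] at hz
  have hmono : 0 ≤ ((a : ℤ) + b + 3) * (N - P2 + 1) * (P' - (p + (((a : ℤ) + b + 2) * p + 1) +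
      ((a : ℤ) + b + 3) * (((a : ℤ) + b + 2) * p + 1) +
      ((a : ℤ) + b + 3) * ((a : ℤ) + b + 3) * (((a : ℤ) + b + 2) * p + 1))) := by
    have h1 : 0 ≤ N - P2 + 1 := by
      rw [hN', hp2]
      have : 0 ≤ ((a : ℤ) + 1) * ((a : ℤ) + b + 3) * (((a : ℤ) + b + 2) * p + 1) + 2 + R := by
        positivity
      linarith
    have h2 := sub_nonneg.2 hz
    positivity
  rw [← sub_pos, hPP']
  push_cast
  have hfin : ((a : ℤ) + b + 3) * N * (P' - N + 1) - (P2 - 1) * (((a : ℤ) + b + 3) * P' + 1 - N) =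
      fC ((a : ℤ) + 2) ((a : ℤ) + b + 3) p R +
      ((a : ℤ) + b + 3) * (N - P2 + 1) * (P' - (p + (((a : ℤ) + b + 2) * p + 1) +
      ((a : ℤ) + b + 3) * (((a : ℤ) + b + 2) * p + 1) +
      ((a : ℤ) + b + 3) * ((a : ℤ) + b + 3) * (((a : ℤ) + b + 2) * p + 1))) := by
    rw [hN', hp2]
    unfold fC
    ring
  rw [hfin]
  linarith

end Pool.Agent.W583.ER
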