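import Pool.Agent.W477.ER.Stm

/-!
# Lemmas V4, V5 (ER-V45)
-/

set_option autoImplicit false

namespace Pool.Agent.W583.ER

open Finset Pool.Agent.W477.ER

theorem sum_split {q : ℕ} (hq : 1 ≤ q) (f : ℕ → ℕ) :
    ∑ i ∈ range q, f i = f 0 + ∑ i ∈ range (q - 1), f (i + 1) := by
  obtain ⟨k, rfl⟩ : ∃ k, q = k + 1 := ⟨q - 1, by omega⟩
  rw [Finset.sum_range_succ', Nat.add_sub_cancel, add_comm]

theorem sum_Ico_one {q : ℕ} (f : ℕ → ℕ) :
    ∑ i ∈ Ico 1 q, f i = ∑ i ∈ range (q - 1), f (i + 1) := by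
  rw [Finset.sum_Ico_eq_sum_range]
  exact Finset.sum_congr rfl fun i _ => by rw [add_comm]

/-- if the first row is saturated, the other rows are small -/
theorem core (hLAY : LAY) (hSat : BeSat) (hX1 : BeX1) (hXx : XxBasic)
    {q d l y : ℕ} {n : ℕ → ℕ} (hq : 2 ≤ q) (hd : d < q) (hn : Antitone n)
    (h0 : d * q ^ l + pp q l + 1 ≤ n 0)
    (hlt : ∑ i ∈ range q, be q i d (n i) < al q 0 d (q ^ (l + 1)) + al q 1 d y) :
    al q 1 d (∑ i ∈ range (q - 1), xx q (n (i + 1))) < al q 1 d y := by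
  have h1 : al q 0 d (q ^ (l + 1)) ≤ be q 0 d (n 0) :=
    hSat q 0 d l (n 0) hq (Nat.zero_le _) (by omega) (by rw [Nat.sub_zero]; exact h0)
  rw [sum_split (by omega)] at hlt
  have h2 : al q 1 d (∑ i ∈ range (q - 1), xx q (n (i + 1))) ≤
      ∑ i ∈ range (q - 1), al q (1 + i) d (xx q (n (i + 1))) :=
    hLAY q (q - 1) 1 d (fun i => xx q (n (i + 1))) hq (Nat.sub_le _ _) (fun i j hij =>
      hXx.1 q _ _ hq (hn (by omega)))
  have h3 : ∑ i ∈ range (q - 1), al q (1 + i) d (xx q (n (i + 1))) ≤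
      ∑ i ∈ range (q - 1), be q (i + 1) d (n (i + 1)) := by
    refine Finset.sum_le_sum fun i _ => ?_
    rw [add_comm 1 i]
    exact hX1 q (i + 1) d (n (i + 1)) hq (by omega)
  omega

theorem cc_bound (hXx : XxBasic) {q : ℕ} {n : ℕ → ℕ} (hq : 2 ≤ q) :
    (q - 1) * cc q n ≤ q * ∑ i ∈ range (q - 1), xx q (n (i + 1)) := by
  rw [cc, sum_Ico_one, Finset.mul_sum, Finset.mul_sum]
  exact Finset.sum_le_sum fun i _ => hXx.2.2.2.2.1 q _ hq

theorem lt_of_al_lt (hAl : AlBasic) {q a e x y : ℕ} (h : al q a e x < al q a e y) : x < y := by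
  by_contra hcon
  exact absurd (hAl.1 q a e y x (not_lt.1 hcon)) (not_le.2 h)

theorem xx_le {q d l n : ℕ} (hPp : PpBasic) (hq : 2 ≤ q) (hd : 1 ≤ d)
    (h : n ≤ d * q ^ l + pp q l) : xx q n ≤ d * q ^ l := by
  unfold xx
  set L : ℕ := Nat.log q ((q - 1) * n + 1) with hL
  rcases Nat.lt_or_ge l L with h1 | h1
  · refine (min_le_left _ _).trans ?_
    have h2 : pp q l ≤ pp q (L - 1) := hPp.2.2.2.2.2 q l (L - 1) (by omega)
    omega
  · refine (min_le_right _ _).trans ?_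
    have h2 : q ^ L ≤ q ^ l := Nat.pow_le_pow_right (by omega) h1
    have h3 : q ^ l ≤ d * q ^ l := Nat.le_mul_of_pos_left _ hd
    exact h2.trans h3

theorem v4_of (hLAY : LAY) (hAl : AlBasic) (hPp : PpBasic) (hSat : BeSat) (hX1 : BeX1)
    (hXx : XxBasic) (hA : LemA) (hTot : TotGe) : V4 := by
  intro q d l r c0 x0 w n hq3 hd2 hdq hl hr hx0 hx0c hc0 hrows htot
  obtain ⟨hn, hw, hsum⟩ := hrows
  have hq : 2 ≤ q := by omega
  have hge : ∑ i ∈ range q, be q i d (n i) ≤ tot q d w n := hTot q d w n hq hdq hw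
  have hlt : ∑ i ∈ range q, be q i d (n i) < al q 0 d (q ^ (l + 1)) + al q 1 d (r - x0) :=
    lt_of_le_of_lt hge htot
  rcases Nat.lt_or_ge (d * q ^ l + pp q l) (n 0) with h0 | h0
  · left
    have h1 := lt_of_al_lt hAl (core hLAY hSat hX1 hXx hq hdq hn h0 hlt)
    refine (cc_bound hXx hq).trans (Nat.mul_le_mul_left q ?_)
    omega
  · right
    by_contra hcon
    have hcon' : n (q - 1) + (c0 - x0) ≤ pp q (l + 1) := by omega
    have hp1 : pp q (l + 1) = pp q l + q ^ l := hPp.2.2.1 q l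
    have hp2 : pp q (l + 2) = pp q (l + 1) + q ^ (l + 1) := hPp.2.2.1 q (l + 1)
    have hp1' : pp q (l + 1) = q * pp q l + 1 := hPp.2.2.2.1 q l
    have hni : ∀ i, n i ≤ d * q ^ l + pp q l := fun i => (hn (Nat.zero_le i)).trans h0
    have hdl : d * q ^ l ≤ q ^ (l + 1) := by
      rw [pow_succ, mul_comm (q ^ l)]; exact Nat.mul_le_mul_right _ hdq.le
    have hX4 : ∀ i, n i ≤ xx q (n i) + pp q l := fun i =>
      hXx.2.2.2.2.2.2.2.1 q (n i) l hq ((hni i).trans (Nat.add_le_add_right hdl _))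
    have hlast : n (q - 1) + (c0 - x0) ≤ xx q (n (q - 1)) + pp q l := by
      rcases Nat.eq_zero_or_pos (c0 - x0) with hz | hz
      · rw [hz, Nat.add_zero]; exact hX4 _
      · obtain ⟨k, rfl⟩ : ∃ k, l = k + 1 := ⟨l - 1, by omega⟩
        have h6 := hXx.2.2.2.2.2.2.2.2.2 q (n (q - 1)) k hq (by
          change n (q - 1) < pp q (k + 1 + 1)
          omega)
        have hp0 : pp q (k + 1) = pp q k + q ^ k := hPp.2.2.1 q k
        rw [Nat.add_sub_cancel] at hc0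
        have h7 : n (q - 1) - xx q (n (q - 1)) + (c0 - x0) ≤ pp q (k + 1) := by
          rcases le_total (n (q - 1) - q ^ (k + 1)) (pp q k) with h8 | h8
          · rw [max_eq_left h8] at h6
            omega
          · rw [max_eq_right h8] at h6
            have hp00 : 0 < pp q k ∨ pp q k = 0 := by omega
            rcases Nat.lt_or_ge (q ^ (k + 1)) (n (q - 1)) with h9 | h9
            · omega
            · omega
        have h10 := hXx.2.2.2.2.2.1 q (n (q - 1)) hq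
        omega
    -- sum of the xx
    have hsumx : q * q ^ l + (r - x0) ≤ ∑ i ∈ range q, xx q (n i) := by
      have hs1 : ∑ i ∈ range (q - 1), n i + n (q - 1) = ∑ i ∈ range q, n i := by
        obtain ⟨k, rfl⟩ : ∃ k, q = k + 1 := ⟨q - 1, by omega⟩
        rw [Finset.sum_range_succ, Nat.add_sub_cancel]
      have hs2 : ∑ i ∈ range (q - 1), xx q (n i) + xx q (n (q - 1)) =
          ∑ i ∈ range q, xx q (n i) := by
        obtain ⟨k, rfl⟩ : ∃ k, q = k + 1 := ⟨q - 1, by omega⟩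
        rw [Finset.sum_range_succ, Nat.add_sub_cancel]
      have hs3 : ∑ i ∈ range (q - 1), n i ≤
          ∑ i ∈ range (q - 1), xx q (n i) + (q - 1) * pp q l := by
        have := Finset.sum_le_sum (fun i (_ : i ∈ range (q - 1)) => hX4 i)
        rw [Finset.sum_add_distrib, Finset.sum_const, card_range, smul_eq_mul] at this
        exact this
      have hs4 : (q - 1) * pp q l + pp q l = q * pp q l := by
        obtain ⟨k, rfl⟩ : ∃ k, q = k + 1 := ⟨q - 1, by omega⟩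
        rw [Nat.add_sub_cancel]; ring
      have hs5 : q ^ (l + 1) = q * q ^ l := by rw [pow_succ, mul_comm]
      have hc0' : c0 ≤ pp q (l + 2) + r := by
        have : q ^ (l - 1) ≤ q ^ (l + 1) := Nat.pow_le_pow_right (by omega) (by omega)
        omega
      omega
    have hA' := hA q q d l (r - x0) (fun i => xx q (n i)) hq le_rfl (by omega)
      (fun i j hij => hXx.1 q _ _ hq (hn hij)) (xx_le hPp hq (by omega) h0) hsumx
    have h9 : ∑ i ∈ range q, al q i d (xx q (n i)) ≤ ∑ i ∈ range q, be q i d (n i) :=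
      Finset.sum_le_sum fun i _ => hX1 q i d (n i) hq (by omega)
    omega

theorem v5_of (hLAY : LAY) (hAl : AlBasic) (hAlSat : AlSat) (hPp : PpBasic) (hSat : BeSat)
    (hX1 : BeX1) (hXx : XxBasic) (hCan : BeCan) (hTot : TotGe) (hV1 : V1) : V5 := by
  intro q d l r N w n hq3 hd2 hl hpar hr hrows hhyp
  by_contra hbad
  have hbad' : tot q d w n < be q 0 d N := not_le.1 hbad
  obtain ⟨-, -, -, h0⟩ := hV1 q d l r N w n hpar hrows hbad'
  obtain ⟨hq, hdq, hv1, hvd, hr1, hrd, hN⟩ := hpar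
  obtain ⟨hn, hw, hsum⟩ := hrows
  have hge : ∑ i ∈ range q, be q i d (n i) ≤ tot q d w n := hTot q d w n hq hdq hw
  have hcan := (hCan q d l 1 r hq hdq le_rfl (by omega) hrd).1
  rw [← hN, Nat.sub_self, Nat.zero_mul, Nat.zero_add] at hcan
  have hlt : ∑ i ∈ range q, be q i d (n i) < al q 0 d (q ^ (l + 1)) + al q 1 d r := by
    rw [← hcan]; exact lt_of_le_of_lt hge hbad'
  have h1 := core hLAY hSat hX1 hXx hq hdq hn h0 hlt
  obtain ⟨k, rfl⟩ : ∃ k, l = k + 1 := ⟨l - 1, by omega⟩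
  have h2 : al q 1 d r ≤ al q 1 d (q ^ (k + 1)) := hAl.1 q 1 d _ _ hr
  have hle : (d - 1) * q ^ k + 1 ≤ q ^ (k + 1) := by
    have h3 : (d - 1) * q ^ k + q ^ k ≤ q * q ^ k := by
      have : (d - 1) * q ^ k + q ^ k = d * q ^ k := by
        obtain ⟨j, rfl⟩ : ∃ j, d = j + 1 := ⟨d - 1, by omega⟩
        rw [Nat.add_sub_cancel]; ring
      rw [this]; exact Nat.mul_le_mul_right _ hdq.le
    have h4 : 1 ≤ q ^ k := Nat.one_le_pow _ _ (by omega)
    rw [pow_succ, mul_comm (q ^ k)]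
    omega
  have h3 : al q 1 d ((d - 1) * q ^ k + 1) = al q 1 d (q ^ (k + 1)) :=
    hAlSat q 1 d k _ hq (by omega) (by omega) le_rfl hle
  rw [← h3] at h2
  have h4 := lt_of_al_lt hAl (lt_of_lt_of_le h1 h2)
  have h5 := cc_bound (n := n) hXx hq
  set X : ℕ := ∑ i ∈ range (q - 1), xx q (n (i + 1)) with hX
  have h6 : X ≤ (d - 1) * q ^ k := by omega
  have hp1 : pp q (k + 2) = pp q (k + 1) + q ^ (k + 1) := hPp.2.2.1 q (k + 1)
  have hp0 : pp q (k + 1) = pp q k + q ^ k := hPp.2.2.1 q k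
  rw [Nat.add_sub_cancel] at hhyp
  obtain ⟨m, rfl⟩ : ∃ m, q = m + 3 := ⟨q - 3, by omega⟩
  obtain ⟨j, rfl⟩ : ∃ j, d = j + 1 := ⟨d - 1, by omega⟩
  rw [Nat.add_sub_cancel] at h6
  have e1 : m + 3 - 1 = m + 2 := by omega
  rw [e1] at h5 hhyp
  have hpk : pp (m + 3) (k + 1 + 1) = pp (m + 3) k + (m + 3) ^ k + (m + 3) * (m + 3) ^ k := by
    change pp (m + 3) (k + 2) = _
    rw [hp1, hp0, pow_succ]; ring
  rw [hpk] at hhyp
  set Wk : ℕ := (m + 3) ^ k with hWk
  have hW1 : 1 ≤ Wk := Nat.one_le_pow _ _ (by omega)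
  set c : ℕ := cc (m + 3) n with hc
  have hj : j ≤ m + 1 := by omega
  have h7 : X ≤ (m + 1) * Wk := h6.trans (Nat.mul_le_mul_right _ hj)
  -- (q-1) c ≤ q X ≤ q (q-2) Wk
  have h8 : (m + 2) * c ≤ (m + 3) * ((m + 1) * Wk) := h5.trans (Nat.mul_le_mul_left _ h7)
  -- q c ≥ (q-1)(q Wk + pp + 1)
  have h9 : (m + 2) * ((m + 3) * Wk + 1) ≤ (m + 3) * c := by nlinarith [hhyp]
  have h10 : (m + 2) * ((m + 2) * ((m + 3) * Wk + 1)) ≤ (m + 3) * ((m + 3) * ((m + 1) * Wk)) := by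
    calc (m + 2) * ((m + 2) * ((m + 3) * Wk + 1)) ≤ (m + 2) * ((m + 3) * c) :=
          Nat.mul_le_mul_left _ h9
      _ = (m + 3) * ((m + 2) * c) := by ring
      _ ≤ _ := Nat.mul_le_mul_left _ h8
  nlinarith

end Pool.Agent.W583.ER
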