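import Pool.Agent.W583.ER.Ineq

/-!
# Polynomial inequalities (ER-IV, ER-IV44)
-/

set_option autoImplicit false

namespace Pool.Agent.W583.ER

open Pool.Agent.W477.ER

/-- the expression of IneqV5 with `P = pp q (l+5)`, `r = q^l + 1 + R` -/
def f5 (q p R : ℤ) : ℤ :=
  (((q - 1) * p + 1) + 2 + R) * ((p + ((q - 1) * p + 1) + q * ((q - 1) * p + 1) +
      q ^ 2 * ((q - 1) * p + 1) + q ^ 3 * ((q - 1) * p + 1) + q ^ 4 * ((q - 1) * p + 1)) -
    ((p + ((q - 1) * p + 1) + q * ((q - 1) * p + 1)) + ((q - 1) * p + 1) + 1 + R)) -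
  (q - 1) * ((p + ((q - 1) * p + 1) + q * ((q - 1) * p + 1)) + ((q - 1) * p + 1) + 1 + R) *
    (((p + ((q - 1) * p + 1) + q * ((q - 1) * p + 1)) + ((q - 1) * p + 1) + 1 + R) - 1)

theorem f5_0 (b p : ℕ) : 0 < f5 ((b : ℤ) + 3) p 0 := by
  unfold f5
  ring_nf
  positivity

theorem f5_L (b p : ℕ) : 0 < f5 ((b : ℤ) + 3) p ((b : ℤ) * (((b : ℤ) + 2) * p + 1)) := by
  unfold f5
  ring_nf
  positivity

theorem conc5 (q p L R : ℤ) : L * f5 q p R =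
    (L - R) * f5 q p 0 + R * f5 q p L + q * (L * R * (L - R)) := by
  unfold f5
  ring

theorem ineqV5 : IneqV5 := by
  intro q l r M N P hq hM hr hr2 hP hN
  obtain ⟨b, rfl⟩ : ∃ b, q = b + 3 := ⟨q - 3, by omega⟩
  obtain ⟨R, rfl⟩ : ∃ R, r = (b + 3) ^ l + 1 + R := ⟨r - ((b + 3) ^ l + 1), by omega⟩
  have e : b + 3 - 2 = b + 1 := by omega
  rw [e] at hr2
  have hgeo := pp_geom (b + 3) l
  have hz : (pp (b + 3) (l + 5) : ℤ) ≤ P := by
    rw [hP]; exact_mod_cast pp_mono _ hM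
  set p : ℕ := pp (b + 3) l with hp
  have hQ : (((b + 3 : ℕ) : ℤ)) ^ l = ((b : ℤ) + 2) * p + 1 := by
    rw [← hgeo]; push_cast; ring
  have hQ' : ((b : ℤ) + 3) ^ l = ((b : ℤ) + 2) * p + 1 := by rw [← hQ]; push_cast; ring
  have hRL : (R : ℤ) ≤ (b : ℤ) * (((b : ℤ) + 2) * p + 1) := by
    have : (((b + 3) ^ l + 1 + R : ℕ) : ℤ) ≤ (((b + 1) * (b + 3) ^ l + 1 : ℕ) : ℤ) := by
      exact_mod_cast hr2
    push_cast at this
    rw [hQ'] at this
    linarith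
  have key := conc_pos (fR := f5 ((b : ℤ) + 3) p R) (f5_0 b p) (f5_L b p) (Int.natCast_nonneg R)
    hRL (show (0 : ℤ) ≤ (b : ℤ) + 3 by positivity) (fun h => by rw [h]) (conc5 _ _ _ _)
  have h5 : (pp (b + 3) (l + 5) : ℤ) = p + (((b : ℤ) + 2) * p + 1) +
      ((b : ℤ) + 3) * (((b : ℤ) + 2) * p + 1) + ((b : ℤ) + 3) ^ 2 * (((b : ℤ) + 2) * p + 1) +
      ((b : ℤ) + 3) ^ 3 * (((b : ℤ) + 2) * p + 1) + ((b : ℤ) + 3) ^ 4 * (((b : ℤ) + 2) * p + 1) := by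
    rw [ppz_succ, ppz_succ, ppz_succ, ppz_succ, ppz_succ, pow_add, pow_add, pow_add, pow_add, hQ]
    push_cast; ring
  have h2 : N = (p + (((b : ℤ) + 2) * p + 1) + ((b : ℤ) + 3) * (((b : ℤ) + 2) * p + 1)) +
      (((b : ℤ) + 2) * p + 1) + 1 + R := by
    rw [hN, ppz_succ, ppz_succ, pow_add, hQ]
    push_cast
    rw [hQ']
    ring
  have hr' : (((b + 3) ^ l + 1 + R : ℕ) : ℤ) + 1 = (((b : ℤ) + 2) * p + 1) + 2 + R := by
    push_cast; rw [hQ']; ring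
  rw [hr']
  have hmono : 0 ≤ ((((b : ℤ) + 2) * p + 1) + 2 + R) * (P - pp (b + 3) (l + 5)) :=
    mul_nonneg (by positivity) (by linarith)
  rw [← sub_pos]
  have hfin : ((((b : ℤ) + 2) * p + 1) + 2 + R) * (P - N) - (((b + 3 : ℕ) : ℤ) - 1) * N * (N - 1) =
      f5 ((b : ℤ) + 3) p R + ((((b : ℤ) + 2) * p + 1) + 2 + R) * (P - pp (b + 3) (l + 5)) := by
    rw [h5, h2]
    unfold f5
    push_cast
    ring
  rw [hfin]
  linarith

theorem ineqV43 : IneqV43 := by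
  intro l r N P hr hr2 hP hN
  obtain rfl : r = 3 ^ l + 1 := by omega
  have hgeo := pp_geom 3 l
  set p : ℕ := pp 3 l with hp
  have hQ : (((3 : ℕ) : ℤ)) ^ l = 2 * p + 1 := by
    rw [← hgeo]; push_cast; ring
  have hQ' : (3 : ℤ) ^ l = 2 * p + 1 := by rw [← hQ]; push_cast; ring
  have h4 : P = p + (2 * p + 1) + 3 * (2 * p + 1) + 9 * (2 * p + 1) + 27 * (2 * p + 1) := by
    rw [hP, ppz_succ, ppz_succ, ppz_succ, ppz_succ, pow_add, pow_add, pow_add, hQ]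
    push_cast; ring
  have h2 : N = p + (2 * p + 1) + 3 * (2 * p + 1) + (2 * p + 1) + 1 := by
    rw [hN, ppz_succ, ppz_succ, pow_add, hQ]
    push_cast
    rw [hQ']
    ring
  have h3 : ((3 ^ l + 1 : ℕ) : ℤ) = 2 * p + 2 := by push_cast; rw [hQ']; ring
  rw [h3, h4, h2, ← sub_pos]
  have hp0 : (0 : ℤ) ≤ p := Int.natCast_nonneg p
  nlinarith [mul_nonneg hp0 hp0]

/-- the expression of IneqL at `P = pp q (l+4)`, `r = q^l` -/
theorem fL_pos (b p : ℕ) : (0 : ℤ) <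
    2 * ((((b : ℤ) + 2) * p + 1) + 1) * ((p + (((b : ℤ) + 2) * p + 1) +
      ((b : ℤ) + 3) * (((b : ℤ) + 2) * p + 1) + ((b : ℤ) + 3) ^ 2 * (((b : ℤ) + 2) * p + 1) +
      ((b : ℤ) + 3) ^ 3 * (((b : ℤ) + 2) * p + 1)) -
      (p + (((b : ℤ) + 2) * p + 1) + ((b : ℤ) + 3) * (((b : ℤ) + 2) * p + 1) +
        (((b : ℤ) + 2) * p + 1))) -
    ((b : ℤ) + 2) * (p + (((b : ℤ) + 2) * p + 1) + ((b : ℤ) + 3) * (((b : ℤ) + 2) * p + 1) +
        (((b : ℤ) + 2) * p + 1)) *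
      ((p + (((b : ℤ) + 2) * p + 1) + ((b : ℤ) + 3) * (((b : ℤ) + 2) * p + 1) +
        (((b : ℤ) + 2) * p + 1)) - 1) := by
  ring_nf
  positivity

theorem ineqL : IneqL := by
  intro q l r M N P hq hl hM hr hr2 hP hN
  obtain ⟨b, rfl⟩ : ∃ b, q = b + 3 := ⟨q - 3, by omega⟩
  have hgeo := pp_geom (b + 3) l
  have hz : (pp (b + 3) (l + 4) : ℤ) ≤ P := by
    rw [hP]; exact_mod_cast pp_mono _ hM
  set p : ℕ := pp (b + 3) l with hp
  have hQ : (((b + 3 : ℕ) : ℤ)) ^ l = ((b : ℤ) + 2) * p + 1 := by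
    rw [← hgeo]; push_cast; ring
  have hQ' : ((b : ℤ) + 3) ^ l = ((b : ℤ) + 2) * p + 1 := by rw [← hQ]; push_cast; ring
  have hrQ : (r : ℤ) ≤ ((b : ℤ) + 2) * p + 1 := by
    have : (r : ℤ) ≤ (((b + 3) ^ l : ℕ) : ℤ) := by exact_mod_cast hr2
    push_cast at this
    rwa [hQ'] at this
  have h4 : (pp (b + 3) (l + 4) : ℤ) = p + (((b : ℤ) + 2) * p + 1) +
      ((b : ℤ) + 3) * (((b : ℤ) + 2) * p + 1) + ((b : ℤ) + 3) ^ 2 * (((b : ℤ) + 2) * p + 1) +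
      ((b : ℤ) + 3) ^ 3 * (((b : ℤ) + 2) * p + 1) := by
    rw [ppz_succ, ppz_succ, ppz_succ, ppz_succ, pow_add, pow_add, pow_add, hQ]
    push_cast; ring
  have h2 : N = (p + (((b : ℤ) + 2) * p + 1) + ((b : ℤ) + 3) * (((b : ℤ) + 2) * p + 1)) + r := by
    rw [hN, ppz_succ, ppz_succ, pow_add, hQ]
    push_cast
    ring
  have hr1 : (1 : ℤ) ≤ r := by exact_mod_cast hr
  have key := fL_pos b p
  rw [h4] at hz
  rw [hQ]
  push_cast
  set P2 : ℤ := p + (((b : ℤ) + 2) * p + 1) + ((b : ℤ) + 3) * (((b : ℤ) + 2) * p + 1) with hP2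
  set Q : ℤ := ((b : ℤ) + 2) * p + 1 with hQdef
  have hQ0 : 0 < Q := by rw [hQdef]; positivity
  have hP20 : 0 < P2 := by rw [hP2]; positivity
  have hN1 : N ≤ P2 + Q := by linarith
  have hN0 : 1 ≤ N := by linarith
  have a1 : ((b : ℤ) + 3 - 1) * N * (N - 1) ≤ ((b : ℤ) + 2) * (P2 + Q) * ((P2 + Q) - 1) := by
    have e : ((b : ℤ) + 3 - 1) = (b : ℤ) + 2 := by ring
    rw [e]
    have : N * (N - 1) ≤ (P2 + Q) * ((P2 + Q) - 1) :=
      mul_le_mul hN1 (by linarith) (by linarith) (by linarith)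
    have h6 : (0 : ℤ) ≤ (b : ℤ) + 2 := by positivity
    nlinarith
  have a2 : 2 * (Q + 1) * ((P2 + ((b : ℤ) + 3) ^ 2 * Q + ((b : ℤ) + 3) ^ 3 * Q) - (P2 + Q)) ≤
      2 * (Q + 1) * (P - N) :=
    mul_le_mul_of_nonneg_left (by linarith) (by linarith)
  linarith

/-! ### IneqV44 -/

/-- `2 (P - N) (s) - A` with `N = P2 + r`; `W = (q-1) p + 1 = q^(l-1)`, `p = pp q (l-1)` -/
def fV (q p r s : ℤ) : ℤ :=
  2 * (q ^ 2 * (q * ((q - 1) * p + 1)) + q ^ 3 * (q * ((q - 1) * p + 1)) - r) * s -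
  ((q - 1) * ((p + ((q - 1) * p + 1) + q * ((q - 1) * p + 1) + q * (q * ((q - 1) * p + 1))) + r) *
    (((p + ((q - 1) * p + 1) + q * ((q - 1) * p + 1) + q * (q * ((q - 1) * p + 1))) + r) - 1) -
    ((p + ((q - 1) * p + 1) + q * ((q - 1) * p + 1) + q * (q * ((q - 1) * p + 1))) + r) * r)

/-- case (a), `q ≥ 5`, `r = Q + 1 + R`, `s = r - pp q l + 1` -/
theorem a5_0 (b p : ℕ) : 0 < fV ((b : ℤ) + 5) p
    (((b : ℤ) + 5) * (((b : ℤ) + 4) * p + 1) + 1)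
    (((b : ℤ) + 5) * (((b : ℤ) + 4) * p + 1) + 1 - (p + (((b : ℤ) + 4) * p + 1)) + 1) := by
  unfold fV
  ring_nf
  positivity

theorem a5_L (b p : ℕ) : 0 < fV ((b : ℤ) + 5) p
    (((b : ℤ) + 5) * (((b : ℤ) + 4) * p + 1) + 1 +
      ((b : ℤ) + 2) * (((b : ℤ) + 5) * (((b : ℤ) + 4) * p + 1)))
    (((b : ℤ) + 5) * (((b : ℤ) + 4) * p + 1) + 1 +
      ((b : ℤ) + 2) * (((b : ℤ) + 5) * (((b : ℤ) + 4) * p + 1)) -
      (p + (((b : ℤ) + 4) * p + 1)) + 1) := by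
  unfold fV
  ring_nf
  positivity

/-- case (a), `q = 4` -/
theorem a4_0 (p : ℕ) : 0 < fV 4 p (4 * (3 * p + 1) + 1) (4 * (3 * p + 1) + 1 - (3 * p + 1) + 1) := by
  unfold fV
  ring_nf
  positivity

theorem a4_L (p : ℕ) : 0 < fV 4 p (4 * (3 * p + 1) + 1 + 4 * (3 * p + 1))
    (4 * (3 * p + 1) + 1 + 4 * (3 * p + 1) - (3 * p + 1) + 1) := by
  unfold fV
  ring_nf
  positivity

/-- case (b1), `r = Q + 1 + R ≤ 2 Q + p`, `s = Q + p + 1` -/
theorem b1_0 (b p : ℕ) : 0 < fV ((b : ℤ) + 4) p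
    (((b : ℤ) + 4) * (((b : ℤ) + 3) * p + 1) + 1)
    (((b : ℤ) + 4) * (((b : ℤ) + 3) * p + 1) + p + 1) := by
  unfold fV
  ring_nf
  positivity

theorem b1_L (b p : ℕ) : 0 < fV ((b : ℤ) + 4) p
    (((b : ℤ) + 4) * (((b : ℤ) + 3) * p + 1) + 1 +
      (((b : ℤ) + 4) * (((b : ℤ) + 3) * p + 1) + p - 1))
    (((b : ℤ) + 4) * (((b : ℤ) + 3) * p + 1) + p + 1) := by
  unfold fV
  ring_nf
  positivity

/-- case (b2), `r = 2 Q + p + R`, `s = r - Q + 1` -/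
theorem b2_0 (b p : ℕ) : 0 < fV ((b : ℤ) + 4) p
    (2 * (((b : ℤ) + 4) * (((b : ℤ) + 3) * p + 1)) + p)
    (2 * (((b : ℤ) + 4) * (((b : ℤ) + 3) * p + 1)) + p -
      (((b : ℤ) + 4) * (((b : ℤ) + 3) * p + 1)) + 1) := by
  unfold fV
  ring_nf
  positivity

theorem b2_L (b p : ℕ) : 0 < fV ((b : ℤ) + 4) p
    (2 * (((b : ℤ) + 4) * (((b : ℤ) + 3) * p + 1)) + p +
      ((b : ℤ) * (((b : ℤ) + 4) * (((b : ℤ) + 3) * p + 1)) + 1))
    (2 * (((b : ℤ) + 4) * (((b : ℤ) + 3) * p + 1)) + p +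
      ((b : ℤ) * (((b : ℤ) + 4) * (((b : ℤ) + 3) * p + 1)) + 1) -
      (((b : ℤ) + 4) * (((b : ℤ) + 3) * p + 1)) + 1) := by
  unfold fV
  ring_nf
  positivity

/-- concavity when `s = r - c` -/
theorem concA (q p r0 c L R : ℤ) : L * fV q p (r0 + R) (r0 + R - c + 1) =
    (L - R) * fV q p r0 (r0 - c + 1) + R * fV q p (r0 + L) (r0 + L - c + 1) +
      q * (L * R * (L - R)) := by
  unfold fV
  ring

/-- concavity when `s` is constant -/
theorem concB (q p r0 s L R : ℤ) : L * fV q p (r0 + R) s =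
    (L - R) * fV q p r0 s + R * fV q p (r0 + L) s + (q - 2) * (L * R * (L - R)) := by
  unfold fV
  ring

theorem ineqV44 : IneqV44 := by
  intro q l r N P T hq hl hr hr2 hP hN hT
  obtain ⟨b, rfl⟩ : ∃ b, q = b + 4 := ⟨q - 4, by omega⟩
  obtain ⟨k, rfl⟩ : ∃ k, l = k + 1 := ⟨l - 1, by omega⟩
  have e : b + 4 - 2 = b + 2 := by omega
  rw [e] at hr2
  rw [Nat.add_sub_cancel]
  have hgeo := pp_geom (b + 4) k
  set p : ℕ := pp (b + 4) k with hp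
  have hW : (((b + 4 : ℕ) : ℤ)) ^ k = ((b : ℤ) + 3) * p + 1 := by
    rw [← hgeo]; push_cast; ring
  have hW' : ((b : ℤ) + 4) ^ k = ((b : ℤ) + 3) * p + 1 := by rw [← hW]; push_cast; ring
  have hQ : (((b + 4 : ℕ) : ℤ)) ^ (k + 1) = ((b : ℤ) + 4) * (((b : ℤ) + 3) * p + 1) := by
    rw [pow_succ, hW]; push_cast; ring
  have hQ' : ((b : ℤ) + 4) ^ (k + 1) = ((b : ℤ) + 4) * (((b : ℤ) + 3) * p + 1) := by
    rw [← hQ]; push_cast; ring
  have hppl : (pp (b + 4) (k + 1) : ℤ) = p + (((b : ℤ) + 3) * p + 1) := by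
    rw [ppz_succ, hW]
  have hP4 : P = (p + (((b : ℤ) + 3) * p + 1) + ((b : ℤ) + 4) * (((b : ℤ) + 3) * p + 1) +
      ((b : ℤ) + 4) * (((b : ℤ) + 4) * (((b : ℤ) + 3) * p + 1))) +
      ((b : ℤ) + 4) ^ 2 * (((b : ℤ) + 4) * (((b : ℤ) + 3) * p + 1)) +
      ((b : ℤ) + 4) ^ 3 * (((b : ℤ) + 4) * (((b : ℤ) + 3) * p + 1)) := by
    rw [hP, ppz_succ, ppz_succ, ppz_succ, ppz_succ, ppz_succ, pow_add _ (k + 1) 1,
      pow_add _ (k + 1) 2, pow_add _ (k + 1) 3, hQ, hW]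
    push_cast; ring
  have hN2 : N = (p + (((b : ℤ) + 3) * p + 1) + ((b : ℤ) + 4) * (((b : ℤ) + 3) * p + 1) +
      ((b : ℤ) + 4) * (((b : ℤ) + 4) * (((b : ℤ) + 3) * p + 1))) + r := by
    rw [hN, ppz_succ, ppz_succ, ppz_succ, pow_add _ (k + 1) 1, hQ, hW]
    push_cast; ring
  have hr' : ((b : ℤ) + 4) * (((b : ℤ) + 3) * p + 1) + 1 ≤ r := by
    have : (((b + 4) ^ (k + 1) : ℕ) : ℤ) + 1 ≤ r := by exact_mod_cast hr
    push_cast at this
    rwa [hQ'] at this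
  have hr2' : (r : ℤ) ≤ ((b : ℤ) + 2) * (((b : ℤ) + 4) * (((b : ℤ) + 3) * p + 1)) + 1 := by
    have : (r : ℤ) ≤ (((b + 2) * (b + 4) ^ (k + 1) + 1 : ℕ) : ℤ) := by exact_mod_cast hr2
    push_cast at this
    rwa [hQ'] at this
  -- the bound on T in terms of fV
  have hp0 : (0 : ℤ) ≤ p := Int.natCast_nonneg p
  have hb0 : (0 : ℤ) ≤ b := Int.natCast_nonneg b
  have hW0 : (0 : ℤ) < ((b : ℤ) + 3) * p + 1 := by positivity
  have hD : 0 < P - N := by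
    rw [hP4, hN2]
    have h1 : (0 : ℤ) < ((b : ℤ) + 4) * (((b : ℤ) + 3) * p + 1) := by positivity
    have h2 : ((b : ℤ) + 2) * (((b : ℤ) + 4) * (((b : ℤ) + 3) * p + 1)) + 1 <
        ((b : ℤ) + 4) ^ 2 * (((b : ℤ) + 4) * (((b : ℤ) + 3) * p + 1)) := by nlinarith
    have h3 : (0 : ℤ) < ((b : ℤ) + 4) ^ 3 * (((b : ℤ) + 4) * (((b : ℤ) + 3) * p + 1)) := by
      positivity
    linarith
  have hTs : ∀ s : ℤ, 0 < fV ((b : ℤ) + 4) p r s → T < s := by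
    intro s hs
    by_contra hcon
    have h1 : s ≤ T := not_lt.1 hcon
    have h2 : 2 * s * (P - N) ≤ 2 * T * (P - N) := by nlinarith
    have h3 : fV ((b : ℤ) + 4) p r s = 2 * s * (P - N) -
        ((((b + 4 : ℕ) : ℤ) - 1) * N * (N - 1) - N * r) := by
      rw [hP4, hN2]
      unfold fV
      push_cast
      ring
    linarith
  -- case (a)
  have hA5 : 5 ≤ b + 4 → T + pp (b + 4) (k + 1) ≤ r := by
    intro h5
    obtain ⟨b', rfl⟩ : ∃ b', b = b' + 1 := ⟨b - 1, by omega⟩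
    have h0 := a5_0 b' p
    have h1 := a5_L b' p
    have eb : (((b' + 1 : ℕ) : ℤ)) = (b' : ℤ) + 1 := by push_cast; ring
    have key := conc_pos (R := (r : ℤ) - (((b' : ℤ) + 5) * (((b' : ℤ) + 4) * p + 1) + 1))
      (L := ((b' : ℤ) + 2) * (((b' : ℤ) + 5) * (((b' : ℤ) + 4) * p + 1)))
      (fR := fV ((b' : ℤ) + 5) p r (r - (p + (((b' : ℤ) + 4) * p + 1)) + 1)) h0 h1
      (by rw [eb] at hr'; linarith) (by rw [eb] at hr2'; linarith)
      (show (0 : ℤ) ≤ (b' : ℤ) + 5 by positivity)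
      (fun h => by
        have : (r : ℤ) = ((b' : ℤ) + 5) * (((b' : ℤ) + 4) * p + 1) + 1 := by linarith
        rw [this])
      (by
        have := concA ((b' : ℤ) + 5) p (((b' : ℤ) + 5) * (((b' : ℤ) + 4) * p + 1) + 1)
          (p + (((b' : ℤ) + 4) * p + 1))
          (((b' : ℤ) + 2) * (((b' : ℤ) + 5) * (((b' : ℤ) + 4) * p + 1)))
          ((r : ℤ) - (((b' : ℤ) + 5) * (((b' : ℤ) + 4) * p + 1) + 1))
        rw [add_sub_cancel] at this
        exact this)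
    have h2 : T < (r : ℤ) - (p + (((b' : ℤ) + 4) * p + 1)) + 1 := by
      apply hTs
      rw [eb, show (b' : ℤ) + 1 + 4 = (b' : ℤ) + 5 by ring]
      exact key
    rw [hppl, eb]
    linarith
  have hA4 : b + 4 = 4 → T + (((b + 4 : ℕ) : ℤ)) ^ k ≤ r := by
    intro h4
    obtain rfl : b = 0 := by omega
    have h0 := a4_0 p
    have h1 := a4_L p
    have key := conc_pos (R := (r : ℤ) - (4 * (3 * p + 1) + 1)) (L := 4 * (3 * p + 1))
      (fR := fV 4 p r (r - (3 * p + 1) + 1)) h0 h1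
      (by push_cast at hr'; linarith) (by push_cast at hr2'; linarith)
      (show (0 : ℤ) ≤ 4 by norm_num)
      (fun h => by
        have : (r : ℤ) = 4 * (3 * p + 1) + 1 := by linarith
        rw [this])
      (by
        have := concA 4 p (4 * (3 * p + 1) + 1) (3 * p + 1) (4 * (3 * p + 1))
          ((r : ℤ) - (4 * (3 * p + 1) + 1))
        rw [add_sub_cancel] at this
        exact this)
    have h2 : T < (r : ℤ) - (3 * p + 1) + 1 := by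
      apply hTs
      push_cast
      simpa using key
    rw [hW]
    push_cast
    linarith
  -- case (b)
  have hB : T + (((b + 4 : ℕ) : ℤ)) ^ (k + 1) ≤ r ∨ T ≤ (((b + 4 : ℕ) : ℤ)) ^ (k + 1) + p := by
    rw [hQ]
    rcases le_total (r : ℤ) (2 * (((b : ℤ) + 4) * (((b : ℤ) + 3) * p + 1)) + p) with h | h
    · right
      have h0 := b1_0 b p
      have h1 := b1_L b p
      have key := conc_pos (R := (r : ℤ) - (((b : ℤ) + 4) * (((b : ℤ) + 3) * p + 1) + 1))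
        (L := ((b : ℤ) + 4) * (((b : ℤ) + 3) * p + 1) + p - 1)
        (fR := fV ((b : ℤ) + 4) p r (((b : ℤ) + 4) * (((b : ℤ) + 3) * p + 1) + p + 1)) h0 h1
        (by linarith) (by linarith) (show (0 : ℤ) ≤ (b : ℤ) + 4 - 2 by linarith)
        (fun h => by
          have : (r : ℤ) = ((b : ℤ) + 4) * (((b : ℤ) + 3) * p + 1) + 1 := by linarith
          rw [this])
        (by
          have := concB ((b : ℤ) + 4) p (((b : ℤ) + 4) * (((b : ℤ) + 3) * p + 1) + 1)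
            (((b : ℤ) + 4) * (((b : ℤ) + 3) * p + 1) + p + 1)
            (((b : ℤ) + 4) * (((b : ℤ) + 3) * p + 1) + p - 1)
            ((r : ℤ) - (((b : ℤ) + 4) * (((b : ℤ) + 3) * p + 1) + 1))
          rw [add_sub_cancel] at this
          exact this)
      have := hTs _ key
      linarith
    · left
      have h0 := b2_0 b p
      have h1 := b2_L b p
      have key := conc_pos (R := (r : ℤ) - (2 * (((b : ℤ) + 4) * (((b : ℤ) + 3) * p + 1)) + p))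
        (L := (b : ℤ) * (((b : ℤ) + 4) * (((b : ℤ) + 3) * p + 1)) + 1)
        (fR := fV ((b : ℤ) + 4) p r (r - (((b : ℤ) + 4) * (((b : ℤ) + 3) * p + 1)) + 1)) h0 h1
        (by linarith) (by linarith) (show (0 : ℤ) ≤ (b : ℤ) + 4 by linarith)
        (fun h => by
          have : (r : ℤ) = 2 * (((b : ℤ) + 4) * (((b : ℤ) + 3) * p + 1)) + p := by linarith
          rw [this])
        (by
          have := concA ((b : ℤ) + 4) p (2 * (((b : ℤ) + 4) * (((b : ℤ) + 3) * p + 1)) + p)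
            (((b : ℤ) + 4) * (((b : ℤ) + 3) * p + 1))
            ((b : ℤ) * (((b : ℤ) + 4) * (((b : ℤ) + 3) * p + 1)) + 1)
            ((r : ℤ) - (2 * (((b : ℤ) + 4) * (((b : ℤ) + 3) * p + 1)) + p))
          rw [add_sub_cancel] at this
          exact this)
      have := hTs _ key
      linarith
  rcases hB with h | h
  · exact Or.inl h
  · exact Or.inr ⟨h, hA4, hA5⟩

end Pool.Agent.W583.ER
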